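import Pool.Agent.Zk94.ColNP

set_option autoImplicit false

/-!
# COL-2PM is NP-complete

Given a bipartite graph whose edges are coloured `1` and `2`, decide whether there are two
edge-disjoint perfect matchings, the first of which uses edges of colour `1` only. The reduction
is from 3-SAT. The edges of colour `1` incident with the vertices of a variable form one long
cycle, so that the first matching picks one of its two perfect matchings (the truth value); the
second matching picks, at each clause, a literal, and this needs an edge of the cycle that is not
used by the first matching.
-/

namespace Pool.Agent.Results.MP_439cda_lc.NPComplete

open Pool.Agent.Lib.CX Pool.Agent.Zk94.Col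

/-- The problem COL-2PM is NP-complete. -/
theorem result : Pool.Agent.Lib.CX.NPComplete Col2PM := ⟨col_np, col_hard⟩

end Pool.Agent.Results.MP_439cda_lc.NPComplete
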